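import Pool.Agent.X229.RS.Dp

/-!
MP_19ffc6_ag: resolution of the quotients of generic determinantal varieties and of spaces of
matrices by extensions of diagonalizable group schemes by products of Frobenius kernels of general
linear groups, and by infinitesimal subgroup schemes of mixed heights of parabolic subgroups.
-/

set_option autoImplicit false

open AlgebraicGeometry CategoryTheory MvPolynomial Pool.Agent.H920R2

universe u

namespace Pool.Agent.Results.MP_19ffc6_ag.DeterminantalSemidirect

section

variable {k B : Type u} [Field k] [CommRing B] [Algebra k B]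

/-- The structure morphism of the spectrum of a subalgebra. -/
noncomputable def str (C : Subalgebra k B) :
    Spec (CommRingCat.of C) ⟶ Spec (CommRingCat.of k) :=
  Spec.map (CommRingCat.ofHom (algebraMap k C))

/-- The spectrum of the subalgebra `C` is a variety and has a resolution of singularities: there
are an integral scheme `Y`, smooth over `k`, and a proper morphism from `Y` to the spectrum which
is an isomorphism over a dense open subset. -/
def IsResolvable (C : Subalgebra k B) : Prop :=
  IsVariety (str C) ∧
  ∃ (Y : Scheme.{u}) (π : Y ⟶ Spec (CommRingCat.of C)),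
    AlgebraicGeometry.IsIntegral Y ∧ AlgebraicGeometry.IsProper π ∧
    AlgebraicGeometry.Smooth (π ≫ str C) ∧
    ∃ U : (Spec (CommRingCat.of C)).Opens, Dense (U : Set (Spec (CommRingCat.of C))) ∧
      IsIso (π ∣_ U)

end

section det

variable (k : Type u) [Field k] (n m s : ℕ)

/-- The coordinate ring `k[B, C]` of the space of the pairs of an `n × s`-matrix `B` and an
`s × m`-matrix `C`. -/
abbrev Pairs := MvPolynomial ((Fin n × Fin s) ⊕ (Fin s × Fin m)) k

/-- The homomorphism `k[X] → k[B, C]`, `X i j ↦ ∑ l, B i l * C l j`, of the map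
`(B, C) ↦ B C` to the space of `n × m`-matrices. Its image `k[BC]` is the coordinate ring of the
variety `X_s` of the `n × m`-matrices of rank at most `s` (`s ≤ n`, `s ≤ m`), with its reduced
structure. -/
noncomputable def product : MvPolynomial (Fin n × Fin m) k →ₐ[k] Pairs k n m s :=
  aeval fun u => ∑ l, X (Sum.inl (u.1, l)) * X (Sum.inr (l, u.2))

/-- The coaction of the left multiplication: `B ↦ G B`, `C ↦ C` (hence `BC ↦ G (BC)`), where `G`
is the generic `n × n`-matrix. -/
noncomputable def left : Pairs k n m s →ₐ[k] MvPolynomial (Fin n × Fin n) (Pairs k n m s) :=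
  aeval (Sum.elim (fun u => ∑ i, X (u.1, i) * C (X (Sum.inl (i, u.2))))
    fun u => C (X (Sum.inr u)))

/-- The coaction of the right multiplication: `B ↦ B`, `C ↦ C H` (hence `BC ↦ (BC) H`), where `H`
is the generic `m × m`-matrix. -/
noncomputable def right : Pairs k n m s →ₐ[k] MvPolynomial (Fin m × Fin m) (Pairs k n m s) :=
  aeval (Sum.elim (fun u => C (X (Sum.inl u)))
    fun u => ∑ j, X (j, u.2) * C (X (Sum.inr (u.1, j))))

/-- The ideal generated by the `G i j ^ q - δ i j`, for the generic `a × a`-matrix `G`: the
equations of the `r`-th Frobenius kernel of `GL_a`, if `q = p ^ r`. -/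
noncomputable def kernelIdeal (a q : ℕ) :
    Ideal (MvPolynomial (Fin a × Fin a) (Pairs k n m s)) :=
  Ideal.span (Set.range fun u => X u ^ q - if u.1 = u.2 then 1 else 0)

variable {Λ : Type} [AddCommGroup Λ] (α : Fin n → Λ) (γ : Fin m → Λ)

/-- The polynomial `f` in the entries of `B` and `C` is a function on the determinantal variety
`X_s` which is invariant under the left multiplications by `(GL_n)_r`, under the right
multiplications by `(GL_m)_r'`, if `q = p ^ r` and `q' = p ^ r'`, and under the action
`(x i j) ↦ (α i (t) * x i j * γ j (t))` of the group scheme `D = Spec k[Λ]`, given by the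
characters `α i` and `γ j` of `D`. -/
structure IsInvariant (q q' : ℕ) (f : Pairs k n m s) : Prop where
  mem_range : f ∈ (product k n m s).range
  left_inv : left k n m s f - C f ∈ kernelIdeal k n m s n q
  right_inv : right k n m s f - C f ∈ kernelIdeal k n m s m q'
  weight : IsWeightedHomogeneous (Sum.elim (fun u => α u.1) fun u => γ u.2) f 0

theorem IsInvariant.mul (q q' : ℕ) {f g : Pairs k n m s} (hf : IsInvariant k n m s α γ q q' f)
    (hg : IsInvariant k n m s α γ q q' g) : IsInvariant k n m s α γ q q' (f * g) := by
  have h1 := (Pool.Agent.Y212.Dk.InvD k n m s q q').mul_mem' (a := f) (b := g)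
    ⟨hf.1, hf.2, hf.3⟩ ⟨hg.1, hg.2, hg.3⟩
  have h2 := hf.weight.mul hg.weight
  rw [add_zero] at h2
  exact ⟨h1.1, h1.2.1, h1.2.2, h2⟩

theorem IsInvariant.add (q q' : ℕ) {f g : Pairs k n m s} (hf : IsInvariant k n m s α γ q q' f)
    (hg : IsInvariant k n m s α γ q q' g) : IsInvariant k n m s α γ q q' (f + g) := by
  have h1 := (Pool.Agent.Y212.Dk.InvD k n m s q q').add_mem' (a := f) (b := g)
    ⟨hf.1, hf.2, hf.3⟩ ⟨hg.1, hg.2, hg.3⟩
  exact ⟨h1.1, h1.2.1, h1.2.2, (weightedHomogeneousSubmodule k _ _).add_mem hf.weight hg.weight⟩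

theorem IsInvariant.const (q q' : ℕ) (c : k) :
    IsInvariant k n m s α γ q q' (algebraMap k (Pairs k n m s) c) := by
  have h1 := (Pool.Agent.Y212.Dk.InvD k n m s q q').algebraMap_mem' c
  exact ⟨h1.1, h1.2.1, h1.2.2, isWeightedHomogeneous_C _ _⟩

/-- The algebra of the functions on the determinantal variety `X_s` which are invariant under
`((GL_n)_r × (GL_m)_r') ⋊ D`, if `q = p ^ r` and `q' = p ^ r'`. -/
noncomputable def invariants (q q' : ℕ) : Subalgebra k (Pairs k n m s) where
  carrier := {f | IsInvariant k n m s α γ q q' f}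
  mul_mem' := fun hf hg => IsInvariant.mul k n m s α γ q q' hf hg
  add_mem' := fun hf hg => IsInvariant.add k n m s α γ q q' hf hg
  algebraMap_mem' := fun c => IsInvariant.const k n m s α γ q q' c

end det

section par

variable (k : Type u) [Field k] (n m : ℕ)

/-- The homomorphism `X i j ↦ ∑ l, G i l * X l j` from the coordinate ring `k[X]` of the space of
`n × m`-matrices to the polynomial ring `k[X][G]`, where `X` and `G` are the generic
`n × m`-matrix and the generic `n × n`-matrix: left multiplication by `G`. -/
noncomputable def coaction : MvPolynomial (Fin n × Fin m) k →ₐ[k]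
    MvPolynomial (Fin n × Fin n) (MvPolynomial (Fin n × Fin m) k) :=
  aeval fun u => ∑ l, X (u.1, l) * C (X (l, u.2))

/-- The ideal of `k[X][G]` generated by the `G i j ^ q i - δ i j` and by the `G i j` with
`lv j < lv i`. If `q i = p ^ r i`, it defines the closed subscheme `H × M_{n,m}` of
`M_n × M_{n,m}`, where `H = H(lv, r)` is the infinitesimal group scheme of the matrices `g` in the
parabolic subgroup `P = {g | g i j = 0 if lv j < lv i}` of `GL_n` with `g i j ^ (p ^ r i) = δ i j`.
If all `r i` are equal to `s`, this is the `s`-th Frobenius kernel of `P`. -/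
noncomputable def parabolicIdeal (lv q : Fin n → ℕ) :
    Ideal (MvPolynomial (Fin n × Fin n) (MvPolynomial (Fin n × Fin m) k)) :=
  Ideal.span ((Set.range fun u => X u ^ q u.1 - if u.1 = u.2 then 1 else 0) ∪
    ((fun u => X u) '' {u | lv u.2 < lv u.1}))

variable {Λ : Type} [AddCommGroup Λ] (α : Fin n → Λ) (γ : Fin m → Λ)

/-- The function `f` on the space of `n × m`-matrices is invariant under the left multiplications
by `H(lv, r)`, if `q i = p ^ r i`, and under the action `(x i j) ↦ (α i (t) * x i j * γ j (t))` of
the group scheme `D = Spec k[Λ]`. -/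
structure IsParabolicInvariant (lv q : Fin n → ℕ) (f : MvPolynomial (Fin n × Fin m) k) :
    Prop where
  inv : coaction k n m f - C f ∈ parabolicIdeal k n m lv q
  weight : IsWeightedHomogeneous (fun u : Fin n × Fin m => α u.1 + γ u.2) f 0

/-- The algebra of the functions on the space of `n × m`-matrices which are invariant under
`H(lv, r) ⋊ D`, if `q i = p ^ r i`. -/
noncomputable def parabolicInvariants (lv q : Fin n → ℕ) :
    Subalgebra k (MvPolynomial (Fin n × Fin m) k) where
  carrier := {f | IsParabolicInvariant k n m α γ lv q f}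
  mul_mem' := fun {f g} hf hg => by
    have h1 := (Pool.Agent.Y212.Pk.InvP k n m lv q).mul_mem' (a := f) (b := g) hf.1 hg.1
    have h2 := hf.weight.mul hg.weight
    rw [add_zero] at h2
    exact ⟨h1, h2⟩
  add_mem' := fun {f g} hf hg =>
    ⟨(Pool.Agent.Y212.Pk.InvP k n m lv q).add_mem' (a := f) (b := g) hf.1 hg.1,
      (weightedHomogeneousSubmodule k _ _).add_mem hf.weight hg.weight⟩
  algebraMap_mem' := fun c =>
    ⟨(Pool.Agent.Y212.Pk.InvP k n m lv q).algebraMap_mem' c, isWeightedHomogeneous_C _ _⟩

end par

/-- Let `k` be a field of characteristic `p` and `Λ` a finite abelian group. Let the finite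
diagonalizable group scheme `D = Spec k[Λ]` act on the space `M_{n,m}` of `n × m`-matrices over
`k` by `(x i j) ↦ (α i (t) * x i j * γ j (t))`, for arbitrary characters `α i`, `γ j` in `Λ`; it
normalizes the groups of left and right multiplications considered below.

(1) Let `s ≤ n`, `s ≤ m`, and `r' ≤ r` (the case `r ≤ r'` follows by transposition of the
matrices). Let `X_s` be the variety of the matrices of rank at most `s`. The quotient of `X_s` by
the finite group scheme `((GL_n)_r × (GL_m)_r') ⋊ D`, where the Frobenius kernels act by left and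
right multiplication, is a variety and has a resolution of singularities.

(2) Let `n ≤ m`, let `lv : Fin n → ℕ` and `r : Fin n → ℕ` be arbitrary, and let `H(lv, r)` be the
infinitesimal group scheme of the matrices `g` in the parabolic subgroup
`P = {g | g i j = 0 if lv j < lv i}` of `GL_n` with `g i j ^ (p ^ r i) = δ i j` (the Frobenius
kernels of `P`, if all `r i` are equal). The quotient of `M_{n,m}` by the finite group scheme
`H(lv, r) ⋊ D`, where `H(lv, r)` acts by left multiplication, is a variety and has a resolution of
singularities. -/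
theorem result (p : ℕ) [Fact p.Prime] (k : Type u) [Field k] [CharP k p] (n m : ℕ)
    (Λ : Type) [AddCommGroup Λ] [Finite Λ] (α : Fin n → Λ) (γ : Fin m → Λ) :
    (∀ s r r' : ℕ, s ≤ n → s ≤ m → r' ≤ r →
      IsResolvable (invariants k n m s α γ (p ^ r) (p ^ r'))) ∧
    (n ≤ m → ∀ lv r : Fin n → ℕ,
      IsResolvable (parabolicInvariants k n m α γ lv fun i => p ^ r i)) := by
  classical
  have _ : Fintype Λ := Fintype.ofFinite Λ
  constructor
  · intro s r r' hsn hsm hr
    exact Pool.Agent.X229.RS.main_D α γ hr hsn hsm _ fun b =>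
      ⟨fun h => ⟨⟨h.1, h.2, h.3⟩, h.4⟩, fun h => ⟨h.1.1, h.1.2.1, h.1.2.2, h.2⟩⟩
  · intro hnm lv r
    exact Pool.Agent.X229.RS.main_P lv r α γ hnm _ fun b =>
      ⟨fun h => ⟨h.1, h.2⟩, fun h => ⟨h.1, h.2⟩⟩

end Pool.Agent.Results.MP_19ffc6_ag.DeterminantalSemidirect
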