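import Pool.Agent.X326.RL.Comp

/-!
# MP_19ffc6_ag: resolution of singularities of varieties given by systems of diagonal equations

Every irreducible component of the subscheme of affine space defined by an arbitrary system of
diagonal equations `∑ i, c j i * x i ^ n i = b j` (arbitrary coefficients, arbitrary positive
exponents) over a perfect field of characteristic `p` has a resolution of singularities, and so
have its normalization and all affine varieties with the same function field which are integral
over a ring generated by Laurent monomials in the coordinate functions. Equivalently: the function
fields are those generated by arbitrary roots `x i` of (arbitrarily many) linear forms on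
an affine space.

The proof: write `n i = a i * p ^ v i`. The spaces `S l` spanned by `1` and the `x i ^ n i` with
`v i ≥ l` form a flag, and all elements of `S l` have `p ^ l`-th roots on the variety. Add
these roots for the error terms of all linear relations between the `p ^ l`-th powers modulo
`S (l + 1)` as new coordinates, for `l = 0, 1, 2, ...`. The equations between all these
coordinates are schön: for given weights choose a basis of maximal weight of `S l` modulo
`S (l + 1)` for each `l`; then the derivatives of the corresponding equations with respect to the
remaining coordinates form a diagonal matrix. Then the theorem of the starting file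
MP_19ffc6_ag.SchonSurfaceCovers is applied. The dimension of the component is computed by going
down for the map with coordinates `x i ^ n i`.
-/

set_option autoImplicit false

open AlgebraicGeometry CategoryTheory MvPolynomial

universe u

namespace Pool.Agent.Results.MP_19ffc6_ag.DiagonalSystems

/-- The `i`-th coordinate function of the closed subvariety of affine space with the ideal `P`, as
an element of its function field. -/
noncomputable def coordinate {k : Type u} [Field k] {N : ℕ} (P : Ideal (MvPolynomial (Fin N) k))
    [P.IsPrime] (i : Fin N) : FractionRing (MvPolynomial (Fin N) k ⧸ P) :=
  algebraMap (MvPolynomial (Fin N) k ⧸ P) _ (Ideal.Quotient.mk P (X i))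

/-- Let `k` be a perfect field of characteristic `p`, let `n i ≥ 1` be arbitrary exponents, let
`c j i, b j ∈ k` be arbitrary, and let `P` be a minimal prime ideal over the ideal generated by the
polynomials `f j = ∑ i, c j i * x i ^ n i - b j`, so that `P` defines an irreducible component of
the subscheme of the affine space given by the equations `f j = 0`. Then this irreducible component
has a resolution of singularities. More generally, this holds for all affine varieties `Spec A`
with the same function field such that `A` is integral over a subring generated by finitely many
Laurent monomials in the coordinate functions `x i` (for example for the normalization of the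
irreducible component). -/
theorem result (p : ℕ) [Fact p.Prime] (k : Type u) [Field k] [PerfectField k] [CharP k p]
    (N q : ℕ) (n : Fin N → ℕ) (hn : ∀ i, n i ≠ 0) (c : Fin q → Fin N → k) (b : Fin q → k)
    (P : Ideal (MvPolynomial (Fin N) k)) [P.IsPrime]
    (hP : P ∈ (Ideal.span (Set.range fun j => ∑ i, C (c j i) * X i ^ n i - C (b j))).minimalPrimes) :
    Pool.Agent.W558.IsResolvableVariety (X := Spec (CommRingCat.of (MvPolynomial (Fin N) k ⧸ P)))
      (Spec.map (CommRingCat.ofHom (algebraMap k (MvPolynomial (Fin N) k ⧸ P)))) ∧
    ∀ (A : Type u) [CommRing A] [IsDomain A] [Algebra k A] [Algebra.FiniteType k A]
      [Algebra A (FractionRing (MvPolynomial (Fin N) k ⧸ P))]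
      [IsScalarTower k A (FractionRing (MvPolynomial (Fin N) k ⧸ P))]
      [IsFractionRing A (FractionRing (MvPolynomial (Fin N) k ⧸ P))] (S : Finset A),
      (∀ a ∈ S, ∃ e : Fin N → ℤ, algebraMap A _ a = ∏ i, coordinate P i ^ e i) →
      (∀ a : A, IsIntegral (Algebra.adjoin k (S : Set A)) a) →
      Pool.Agent.W558.IsResolvableVariety (X := Spec (CommRingCat.of A))
        (Spec.map (CommRingCat.ofHom (algebraMap k A))) :=
  ⟨Pool.Agent.X326.RL.comp_self p k n hn c b P hP,
    fun A _ _ _ _ _ _ _ S hS hA => Pool.Agent.X326.RL.comp p k n hn c b P hP A S hS hA⟩

end Pool.Agent.Results.MP_19ffc6_ag.DiagonalSystems
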