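import Pool.Agent.X326.RK.Det

/-!
# MP_19ffc6_ag: resolution of singularities of determinantal hypersurfaces with rank one coefficients

Resolution of singularities of the hypersurfaces `det (C + ∑ e, t e * v e * (u e)ᵀ) = 0`, where the
`t e` are monomials with a private variable each, over a perfect field of characteristic `p` or over
the polynomials in two parameters, in all dimensions.

For constant `C = 0` and `t e = x e` these are the configuration hypersurfaces
`∑ B, det (U_B) * det (V_B) * ∏ e ∈ B, x e = 0` (Bloch-Esnault-Kreimer), in particular, for
`u e = v e` the rows of the reduced incidence matrix of a graph, the graph hypersurfaces of the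
Kirchhoff (Symanzik) polynomials; for unit vectors `u e`, `v e` they are the determinants of
the matrices whose entries are independent variables (or such monomials) or arbitrary polynomials
in the parameters.

The proof: let `w` be a kernel vector of the matrix over the function field with one coordinate
equal to `1`. The products `z e = t e * (u e · w)` and the coordinates of `w` satisfy the linear
equations `C w + ∑ e, z e * v e = 0`, of rank `m`. So they span a space over the field of the
parameters whose dimension is the number of the `t e`, and the function field is described by this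
space, the free variables and the relations `w j = 1` and `t e * (u e · w) = z e` between products of
elements of this space. Then the theorem of the starting file MP_b525bf_ag.ProductsOfLinearForms is
applied. The linear forms `u e · w` do not vanish, because otherwise the determinant would vanish
for all values of `x e`.
-/

set_option autoImplicit false

open AlgebraicGeometry CategoryTheory MvPolynomial

universe u

namespace Pool.Agent.Results.MP_19ffc6_ag.RankOneDeterminants

/-- The polynomial `det (C + ∑ e, y ^ β e * x e ^ a e * v e * (u e)ᵀ)` in the variables
`s 1, ..., s τ, y 1, ..., y n, x 1, ..., x N`, where the entries of the matrix `C` and of the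
vectors `u e`, `v e` are polynomials in `s 1, ..., s τ`. -/
noncomputable def equation {k : Type u} [Field k] {τ n N m : ℕ}
    (C : Matrix (Fin m) (Fin m) (MvPolynomial (Fin τ) k))
    (u v : Fin N → Fin m → MvPolynomial (Fin τ) k) (β : Fin N → Fin n → ℕ) (a : Fin N → ℕ) :
    MvPolynomial (Fin τ ⊕ (Fin n ⊕ Fin N)) k :=
  (Matrix.of fun i j => rename Sum.inl (C i j) +
    ∑ e, (∏ l, X (Sum.inr (Sum.inl l)) ^ β e l) * X (Sum.inr (Sum.inr e)) ^ a e *
      (rename Sum.inl (v e i) * rename Sum.inl (u e j))).det

/-- Let `k` be a perfect field of characteristic `p`, let `τ = 0` or `τ = 2`, and let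
`f = det (C + ∑ e, y ^ β e * x e ^ a e * v e * (u e)ᵀ)` in the variables
`s 1, ..., s τ, y 1, ..., y n, x 1, ..., x N`, where `C` is a square matrix and the `u e`, `v e` are
vectors with entries in `k[s 1, ..., s τ]`, the exponents `β e` are arbitrary, and the exponents
`a e` are not divisible by `p`. Suppose that `N ≥ 2`, that `f` is a prime element, and that each
variable `x e` occurs in `f`. Then the hypersurface `f = 0` is a variety which has a resolution
of singularities. -/
theorem result (p : ℕ) [Fact p.Prime] (k : Type u) [Field k] [PerfectField k] [CharP k p]
    (τ n N m : ℕ) (hτ : τ = 0 ∨ τ = 2) (hN : 2 ≤ N)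
    (C : Matrix (Fin m) (Fin m) (MvPolynomial (Fin τ) k))
    (u v : Fin N → Fin m → MvPolynomial (Fin τ) k) (β : Fin N → Fin n → ℕ) (a : Fin N → ℕ)
    (ha : ∀ e, ¬ p ∣ a e) (hf : Prime (equation C u v β a))
    (hx : ∀ e, Sum.inr (Sum.inr e) ∈ (equation C u v β a).vars) :
    Pool.Agent.W558.IsResolvableVariety
      (X := Spec (CommRingCat.of (MvPolynomial (Fin τ ⊕ (Fin n ⊕ Fin N)) k ⧸
        Ideal.span {equation C u v β a})))
      (Spec.map (CommRingCat.ofHom (algebraMap k _))) :=
  Pool.Agent.X326.RK.main C u v β a p hτ hN ha hf hx

end Pool.Agent.Results.MP_19ffc6_ag.RankOneDeterminants
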