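import Pool.Agent.X326.TSb.Fin

/-!
# MP_19ffc6_ag: resolution of singularities of wild Brieskorn-Pham hypersurfaces

Sums of `p`-powers of monomials with a private variable, with coefficients which are products of
arbitrary polynomials on a product of affine planes, in all dimensions, over perfect fields of
characteristic `p`.

The proof: the exponents may be divisible by `p`, so the equation is degenerate with respect to its
Newton polytope. Collect the terms with `p ^ l ∣ q i`; the `p ^ l`-th root of this partial sum is a
function `L l` on the hypersurface, and `L l = L (l + 1) ^ p + (terms with q i = p ^ l)`. The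
hypersurface is embedded in the product of a torus with the additional coordinates `L l` and the
planes, where these equations are schön with respect to the torus; then the theorem of
the starting file MP_19ffc6_ag.SchonSurfaceCovers is applied.
-/

set_option autoImplicit false

open AlgebraicGeometry CategoryTheory MvPolynomial

universe u

namespace Pool.Agent.Results.MP_19ffc6_ag.WildBrieskornPham

open Pool.Agent.X326.TSb

/-- Let `k` be a perfect field of characteristic `p` and let `f` be the polynomial
`c₀ * (g₀ * y ^ β₀) ^ (p ^ r) + ∑ i, c i * (g i * y ^ β i * x i ^ a i) ^ (p ^ v i)`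
in the variables `s 1, t 1, ..., s m, t m, y 1, ..., y n, x 1, ..., x N`, where `g₀` and the `g i`
are products of nonzero polynomials in `s l, t l` for `l = 1, ..., m`, the exponents `β` are
arbitrary, `c i ≠ 0`, the `a i` are not divisible by `p`, and `v i ≤ r`. Suppose that `f` has at
least two terms (`N ≥ 2`, or `N = 1` and `c₀ ≠ 0`) and is a prime element. Then the hypersurface
`f = 0` is a variety which has a resolution of singularities.

For `m = n = 0` this is the hypersurface `c 1 * x 1 ^ d 1 + ... + c N * x N ^ d N + c₀ = 0` with
arbitrary exponents `d i = p ^ v i * a i`. -/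
theorem result (p : ℕ) [Fact p.Prime] (k : Type u) [Field k] [PerfectField k] [CharP k p]
    (m n N r : ℕ) (h1N : 1 ≤ N) (c₀ : k) (hN : 2 ≤ N ∨ c₀ ≠ 0) (c : Fin N → k)
    (hc : ∀ i, c i ≠ 0) (v : Fin N → ℕ) (hv : ∀ i, v i ≤ r)
    (a : Fin N → ℕ) (ha : ∀ i, ¬ p ∣ a i) (β₀ : Fin n → ℕ) (β : Fin N → Fin n → ℕ)
    (g₀ : Fin m → MvPolynomial (Fin 2) k) (hg₀ : ∀ l, g₀ l ≠ 0)
    (g : Fin N → Fin m → MvPolynomial (Fin 2) k) (hg : ∀ i l, g i l ≠ 0)
    (hf : Prime (equation p r v β₀ β a c₀ c g₀ g)) :
    Pool.Agent.W558.IsResolvableVariety
      (X := Spec (CommRingCat.of (MvPolynomial (VV m n N) k ⧸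
        Ideal.span {equation p r v β₀ β a c₀ c g₀ g})))
      (Spec.map (CommRingCat.ofHom (algebraMap k _))) :=
  main'' p r v β₀ β a c₀ c g₀ g h1N hN hv hc hg₀ hg ha hf

end Pool.Agent.Results.MP_19ffc6_ag.WildBrieskornPham
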